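import Pool.Agent.Helper46.Tet.Main

/-!
# MP_70eb8f_co: point sets all of whose tetrahedralizations have almost linear size

For every `n ≥ 4` there is a set of `n` points in general position in `ℝ³` such that every
tetrahedralization has at most `n * exp (53 * √(log n)) = n ^ (1 + o(1))` tetrahedra.
-/

set_option autoImplicit false

namespace Pool.Agent.Helper46.Keep.NearLinearTetrahedralizations

theorem result (n : ℕ) (hn : 4 ≤ n) :
    ∃ P : Finset (EuclideanSpace ℝ (Fin 3)), P.card = n ∧
      (∀ S : Finset (EuclideanSpace ℝ (Fin 3)), S ⊆ P → S.card = 4 →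
        AffineIndependent ℝ
          (Subtype.val : ↥(S : Set (EuclideanSpace ℝ (Fin 3))) → EuclideanSpace ℝ (Fin 3))) ∧
      ∀ T : Finset (Finset (EuclideanSpace ℝ (Fin 3))),
        (∀ t ∈ T, t ⊆ P ∧ t.card = 4) →
        (⋃ t ∈ T, convexHull ℝ (t : Set (EuclideanSpace ℝ (Fin 3)))) =
          convexHull ℝ (P : Set (EuclideanSpace ℝ (Fin 3))) →
        (∀ t ∈ T, ∀ s ∈ T,
          convexHull ℝ (t : Set (EuclideanSpace ℝ (Fin 3))) ∩
              convexHull ℝ (s : Set (EuclideanSpace ℝ (Fin 3))) =
            convexHull ℝ ((t : Set (EuclideanSpace ℝ (Fin 3))) ∩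
              (s : Set (EuclideanSpace ℝ (Fin 3))))) →
        (T.card : ℝ) ≤ n * Real.exp (53 * Real.sqrt (Real.log n)) :=
  Pool.Agent.Helper46.Tet.main n hn

end Pool.Agent.Helper46.Keep.NearLinearTetrahedralizations
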