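import Mathlib
import Pool.Agent.Helper46.QA.FinM

set_option autoImplicit false
open MeasureTheory Real Set Filter Topology

namespace Pool.Agent.Results.MP_9ee088_an.QuasiPeriodic

variable {d : ℕ}

/-- the standard map `S_a(x, y) = (2x - y + a sin 2πx, x)` of the torus `T² = (ℝ/ℤ)²`, where
`sin 2πx` is the imaginary part of `e^{2πix}` -/
noncomputable def std (a : ℝ) (z : UnitAddCircle × UnitAddCircle) : UnitAddCircle × UnitAddCircle :=
  (z.1 + z.1 - z.2 + ((a * (fourier 1 z.1 : ℂ).im : ℝ) : UnitAddCircle), z.1)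

/-- the skew product `(θ, z) ↦ (θ + α, S_{a(θ)} z)` of `T^d × T²` -/
noncomputable def skew (α : Fin d → UnitAddCircle) (a : (Fin d → UnitAddCircle) → ℝ)
    (p : (Fin d → UnitAddCircle) × (UnitAddCircle × UnitAddCircle)) :
    (Fin d → UnitAddCircle) × (UnitAddCircle × UnitAddCircle) :=
  (p.1 + α, std (a p.1) p.2)

/-- the standard map lifted to the plane -/
noncomputable def lift (a : ℝ) (z : ℝ × ℝ) : ℝ × ℝ :=
  (2 * z.1 - z.2 + a * Real.sin (2 * π * z.1), z.1)

/-- the composition `S_{a(θ + (n-1)α)} ⋯ S_{a(θ)}` lifted to the plane -/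
noncomputable def liftn (α : Fin d → UnitAddCircle) (a : (Fin d → UnitAddCircle) → ℝ)
    (θ : Fin d → UnitAddCircle) : ℕ → ℝ × ℝ → ℝ × ℝ
  | 0 => id
  | n + 1 => fun z => lift (a (θ + n • α)) (liftn α a θ n z)

/-- the function on `ℝ^d` defined by a function on the torus `T^d = (ℝ/ℤ)^d` -/
def lf (f : (Fin d → UnitAddCircle) → ℝ) (x : Fin d → ℝ) : ℝ := f fun m => (x m : UnitAddCircle)

/-- the skew product is ergodic and mixing relative to `T^d`, and the exponent on the fibres is a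
positive constant almost everywhere -/
def Good (α : Fin d → UnitAddCircle) (a : (Fin d → UnitAddCircle) → ℝ) : Prop :=
  Ergodic (skew α a) volume ∧
  (∀ φ ψ : (Fin d → UnitAddCircle) × (UnitAddCircle × UnitAddCircle) → ℝ,
    MemLp φ 2 volume → MemLp ψ 2 volume → (∀ᵐ θ : Fin d → UnitAddCircle, ∫ z, ψ (θ, z) = 0) →
    Tendsto (fun n : ℕ => ∫ p, φ ((skew α a)^[n] p) * ψ p) atTop (𝓝 0)) ∧
  ∃ L : ℝ, 0 < L ∧ ∀ᵐ θ : Fin d → UnitAddCircle, ∀ᵐ z : ℝ × ℝ,
    Tendsto (fun n : ℕ => Real.log ‖fderiv ℝ (liftn α a θ n) z‖ / n) atTop (𝓝 L)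

lemma liftn_eq (α : Fin d → UnitAddCircle) (a : (Fin d → UnitAddCircle) → ℝ)
    (θ : Fin d → UnitAddCircle) (n : ℕ) :
    liftn α a θ n = Pool.Agent.Helper46.QRO.liftn α a θ n := by
  induction n with
  | zero => rfl
  | succ n ih =>
    funext z
    show lift (a (θ + n • α)) (liftn α a θ n z) =
      Pool.Agent.Helper46.QRO.lift (a (θ + n • α)) (Pool.Agent.Helper46.QRO.liftn α a θ n z)
    rw [ih]
    rfl

lemma good_eq (α : Fin d → UnitAddCircle) (a : (Fin d → UnitAddCircle) → ℝ)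
    (h : Pool.Agent.Helper46.QA.GoodM α a) : Good α a := by
  have e : liftn α a = Pool.Agent.Helper46.QRO.liftn α a := by
    funext θ n
    exact liftn_eq _ _ _ _
  unfold Good
  rw [e]
  exact h

/-- **The standard map with a quasi-periodic parameter, all parameters at once.** For `4r < d` there
is a random `C^r` function `N` on `T^d`, with all derivatives of order at most `r` bounded by one,
such that for almost all `α` in `T^d` and every sequence of continuous functions `e 0, e 1, ..` on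
`T^d`, almost surely, the skew products with all `a = c 0 e 0 + .. + c (k-1) e (k-1) + qN`, `c i`
real and `q ≠ 0`, are good at the same time. -/
theorem result (d r : ℕ) (hr : 4 * r < d) :
    ∃ (Ω : Type) (_ : MeasurableSpace Ω) (P : Measure Ω) (N : Ω → (Fin d → UnitAddCircle) → ℝ),
      IsProbabilityMeasure P ∧ (∀ θ, Measurable fun ω => N ω θ) ∧
      (∀ ω, ContDiff ℝ r (lf (N ω)) ∧
        ∀ k : ℕ, k ≤ r → ∀ x, ‖iteratedFDeriv ℝ k (lf (N ω)) x‖ ≤ 1) ∧
      ∀ᵐ α : Fin d → UnitAddCircle,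
        ∀ e : ℕ → (Fin d → UnitAddCircle) → ℝ, (∀ i, Continuous (e i)) →
          ∀ᵐ ω ∂P, ∀ (k : ℕ) (c : ℕ → ℝ) (q : ℝ), q ≠ 0 →
            Good α fun θ => (∑ i ∈ Finset.range k, c i * e i θ) + q * N ω θ := by
  obtain ⟨Ω, mΩ, P, N, h1, h2, h3, h4⟩ := Pool.Agent.Helper46.QA.exAM d r hr
  refine ⟨Ω, mΩ, P, N, h1, h2, h3, ?_⟩
  filter_upwards [h4] with α hα e he
  filter_upwards [hα e he] with ω hω k c q hq
  exact good_eq _ _ (hω k c q hq)

end Pool.Agent.Results.MP_9ee088_an.QuasiPeriodic
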