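import Mathlib
import Pool.Agent.Helper95.RP.Final

set_option autoImplicit false
open MeasureTheory Real Set Filter Topology

namespace Pool.Agent.Results.MP_9ee088_an.RandomParameters

/-- the standard map with parameter `a` in the plane -/
noncomputable def step (a : ℝ) (z : ℝ × ℝ) : ℝ × ℝ :=
  (2 * z.1 - z.2 + a * Real.sin (2 * π * z.1), z.1)

/-- composition of the first `n` maps -/
noncomputable def orbit (a : ℕ → ℝ) : ℕ → ℝ × ℝ → ℝ × ℝ
  | 0, z => z
  | n + 1, z => step (a n) (orbit a n z)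

lemma orbit_eq : orbit = Pool.Agent.Helper95.RP.orbit := by
  funext a n
  induction n with
  | zero => rfl
  | succ n ih =>
    funext z
    show step (a n) (orbit a n z) =
      Pool.Agent.Helper95.RP.step (a n) (Pool.Agent.Helper95.RP.orbit a n z)
    rw [ih]
    rfl

/-- Random products of standard maps with independent random parameters (not identically
distributed): if at each step the law charges pairs of different parameters, the first of them not a
half-integer, then mean square and almost sure exponential mixing and exponential growth of the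
derivative, with a rate depending only on the constants of this hypothesis; in the identically
distributed case mixing of the skew product and existence of the exponent. For one law the mean
square bound holds, for some constants, if and only if the law is neither a point mass nor carried
by the half-integers. -/
theorem result
    (X : ℕ → (ℕ → ℝ) → UnitAddCircle × UnitAddCircle → UnitAddCircle × UnitAddCircle)
    (hX : ∀ n a (x y : ℝ), X n a ((x : UnitAddCircle), (y : UnitAddCircle)) =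
      (((orbit a n (x, y)).1 : UnitAddCircle), ((orbit a n (x, y)).2 : UnitAddCircle))) :
    (∀ B s q : ℝ, 0 < s → 0 < q → ∃ γ : ℝ, 0 < γ ∧ ∀ (ν : ℕ → Measure ℝ)
      [∀ n, IsProbabilityMeasure (ν n)],
      (∀ n, q ≤ ((ν n).prod (ν n)).real {t : ℝ × ℝ | s ≤ |t.1 - t.2| ∧
        s ≤ |Real.sin (2 * π * t.1)| ∧ |t.1| ≤ B}) →
      (∀ φ ψ : UnitAddCircle × UnitAddCircle → ℝ, MemLp φ 2 volume → MemLp ψ 2 volume → ∀ n : ℕ,
        ∫ a, ((∫ p, φ (X n a p) * ψ p) - (∫ p, φ p) * ∫ p, ψ p) ^ 2 ∂(Measure.infinitePi ν) ≤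
          2 * Real.exp (-(γ * n)) * (∫ p, φ p ^ 2) * ∫ p, ψ p ^ 2) ∧
      (∀ᵐ a ∂(Measure.infinitePi ν), ∃ C : ℝ, ∀ (n : ℕ)
        (φ ψ : UnitAddCircle × UnitAddCircle → ℝ),
        LipschitzWith 1 φ → LipschitzWith 1 ψ → (∀ p, |φ p| ≤ 1) → (∀ p, |ψ p| ≤ 1) →
        |(∫ p, φ (X n a p) * ψ p) - (∫ p, φ p) * ∫ p, ψ p| ≤ C * Real.exp (-(γ * n))) ∧
      (∀ᵐ a ∂(Measure.infinitePi ν), ∀ᵐ z : ℝ × ℝ, ∀ᶠ n : ℕ in atTop,
        Real.exp (γ * n) ≤ ‖fderiv ℝ (orbit a n) z‖) ∧
      ((∀ n, ν n = ν 0) →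
        (∀ U V : Set ((ℕ → ℝ) × (UnitAddCircle × UnitAddCircle)), MeasurableSet U →
          MeasurableSet V → Tendsto (fun n : ℕ => ((Measure.infinitePi ν).prod volume)
            (U ∩ {x | ((fun i => x.1 (i + n)), X n x.1 x.2) ∈ V})) atTop
            (𝓝 (((Measure.infinitePi ν).prod volume) U *
              ((Measure.infinitePi ν).prod volume) V))) ∧
        ((∃ b : ℝ, ∀ᵐ c ∂(ν 0), |c| ≤ b) → ∃ l : ℝ, γ ≤ l ∧
          ∀ᵐ a ∂(Measure.infinitePi ν), ∀ᵐ z : ℝ × ℝ,
            Tendsto (fun n : ℕ => Real.log ‖fderiv ℝ (orbit a n) z‖ / n) atTop (𝓝 l)))) ∧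
    (∀ (ν : Measure ℝ) [IsProbabilityMeasure ν],
      (∃ C γ : ℝ, 0 < γ ∧ ∀ φ ψ : UnitAddCircle × UnitAddCircle → ℝ, MemLp φ 2 volume →
        MemLp ψ 2 volume → ∀ n : ℕ,
        ∫ a, ((∫ p, φ (X n a p) * ψ p) - (∫ p, φ p) * ∫ p, ψ p) ^ 2
          ∂(Measure.infinitePi fun _ : ℕ => ν) ≤
          C * Real.exp (-(γ * n)) * (∫ p, φ p ^ 2) * ∫ p, ψ p ^ 2) ↔
      (∀ a, ν {a} < 1) ∧ ν {a : ℝ | ∃ m : ℤ, 2 * a = (m : ℝ)} < 1) := by
  rw [orbit_eq] at hX ⊢
  exact Pool.Agent.Helper95.RP.main X hX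

end Pool.Agent.Results.MP_9ee088_an.RandomParameters
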